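import Pool.Agent.N596.AS.Avg

/-! Project AS, part STEPA: marks in the algebra of `SA`. -/

set_option autoImplicit false

namespace Pool.Agent.N596.AS

open Finset Matrix
open Pool.Agent.N139.AS

noncomputable section

/-- translation of patterns -/
def trp (p r : ℕ) (l : Lam) (ω : {y : Lam // InL (-(r : ℤ)) (r : ℤ) y} → ZMod p) :
    {y : Lam // InL (-(r : ℤ)) (r : ℤ) y} → ZMod p :=
  fun y => exo p (-(r : ℤ)) r ω (-l + y.1)

/-- the class of a pattern -/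
def orb (p r k : ℕ) (ω : {y : Lam // InL (-(r : ℤ)) (r : ℤ) y} → ZMod p) :
    Set ({y : Lam // InL (-(r : ℤ)) (r : ℤ) y} → ZMod p) :=
  {g | ∃ l, InL (-(k : ℤ)) k l ∧ g = trp p r l ω}

/-- the condition of CLH -/
def FF (p r g j : ℕ) (l : Lam) (ω : {y : Lam // InL (-(g : ℤ)) (g : ℤ) y} → ZMod p) : Prop :=
  ∀ y, InL (-(r : ℤ)) r y → exo p (-(g : ℤ)) g ω (shL.symm^[j] y) = exo p (-(g : ℤ)) g ω (-l + y)

variable {p : ℕ} [hp : Fact p.Prime] {d : ℕ}

theorem trp_zero (r : ℕ) (ω : {y : Lam // InL (-(r : ℤ)) (r : ℤ) y} → ZMod p) :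
    trp p r 0 ω = ω := by
  funext y
  unfold trp
  rw [neg_zero, zero_add, exo_of ω y.2]

theorem trp_trp {r : ℕ} {l l' : Lam} (hl' : InL (-(r : ℤ)) r l')
    (ω : {y : Lam // InL (-(r : ℤ)) (r : ℤ) y} → ZMod p) :
    trp p r l' (trp p r l ω) = trp p r (l + l') ω := by
  funext y
  have h1 : InL (-(r : ℤ)) r (-l' + y.1) := hl'.neg.add y.2
  have h2 : trp p r l' (trp p r l ω) y = exo p (-(r : ℤ)) r (trp p r l ω) (-l' + y.1) := rfl
  rw [h2, exo_of _ h1]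
  unfold trp
  simp only
  congr 1
  abel

theorem mem_orb (r k : ℕ) (ω : {y : Lam // InL (-(r : ℤ)) (r : ℤ) y} → ZMod p) :
    ω ∈ orb p r k ω := ⟨0, InL.zero _ _, (trp_zero r ω).symm⟩

theorem orb_trp {r k : ℕ} (hk : k ≤ r) {l : Lam} (hl : InL (-(k : ℤ)) k l)
    (ω : {y : Lam // InL (-(r : ℤ)) (r : ℤ) y} → ZMod p) :
    orb p r k (trp p r l ω) = orb p r k ω := by
  have hmono : ∀ {l : Lam}, InL (-(k : ℤ)) k l → InL (-(r : ℤ)) r l := fun h =>
    InL.mono h (by omega) (by omega)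
  ext g
  constructor
  · rintro ⟨l', hl', rfl⟩
    exact ⟨l + l', hl.add hl', trp_trp (hmono hl') ω⟩
  · rintro ⟨l', hl', rfl⟩
    refine ⟨-l + l', hl.neg.add hl', ?_⟩
    rw [trp_trp (hmono (hl.neg.add hl'))]
    congr 1
    abel

open Classical in
/-- the marks commute with the lamps -/
theorem comm_SL (hA : S_SPA) {R : ℕ} {α : NN p → UU d} {t : UU d} (h : Act (SS p) R α t)
    {r k : ℕ} (hk : k ≤ r) (hr : r ≤ R) [Fintype {y : Lam // InL (-(r : ℤ)) (r : ℤ) y}]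
    (B : Set ({y : Lam // InL (-(r : ℤ)) (r : ℤ) y} → ZMod p) → Prop) {x : NN p}
    (hx : x ∈ SL p) (hx' : x ∈ WN p (-(k : ℤ)) k) (hx'' : x ∈ WN p (-(r : ℤ)) r) :
    Commute (α x).1 (DD (EG p α r) (fun ω => B (orb p r k ω))) := by
  obtain ⟨-, h2, -, -, -, h6, -, -⟩ := hA p R d α t h (-(r : ℤ)) r (by omega) (by omega)
  have hl : InL (-(k : ℤ)) k x.l := hx'.1
  have hl' : InL (-(r : ℤ)) r x.l := InL.mono hl (by omega) (by omega)
  have key : ∀ ω, (α x).1 * EG p α r ω = EG p α r (trp p r x.l ω) * (α x).1 := by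
    intro ω
    have h3 := h6 (exo p (-(r : ℤ)) r ω) x hx hx''
    have h4 : EE p α (-(r : ℤ)) r (fun y => exo p (-(r : ℤ)) r ω (-x.l + y)) =
        EG p α r (trp p r x.l ω) := by
      apply h2
      intro y hy
      rw [exo_of _ hy]
      rfl
    rw [← h4]
    exact h3
  let e : ({y : Lam // InL (-(r : ℤ)) (r : ℤ) y} → ZMod p) ≃
      ({y : Lam // InL (-(r : ℤ)) (r : ℤ) y} → ZMod p) :=
    { toFun := trp p r x.l
      invFun := trp p r (-x.l)
      left_inv := fun ω => by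
        rw [trp_trp hl'.neg, add_neg_cancel, trp_zero]
      right_inv := fun ω => by
        rw [trp_trp hl', neg_add_cancel, trp_zero] }
  unfold Commute SemiconjBy DD
  rw [Finset.mul_sum, Finset.sum_mul]
  rw [← Equiv.sum_comp e (fun ω => (if B (orb p r k ω) then EG p α r ω else 0) * (α x).1)]
  apply Finset.sum_congr rfl
  intro ω _
  have h5 : orb p r k (e ω) = orb p r k ω := orb_trp hk hl ω
  simp only [h5]
  by_cases h7 : B (orb p r k ω)
  · rw [if_pos h7, if_pos h7]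
    exact key ω
  · rw [if_neg h7, if_neg h7, mul_zero, zero_mul]

/-- two positions with the same class give a periodic pattern -/
theorem FF_of_orb {r K G : ℕ} (hr : 2 * K ≤ r) {i i' : ℤ}
    (hi : |i| ≤ K) (hi' : |i'| ≤ K) (hlt : i < i')
    (ω : {y : Lam // InL (-(G : ℤ)) (G : ℤ) y} → ZMod p)
    (h : orb p r (2 * K) (pull p r G (-i) ω) = orb p r (2 * K) (pull p r G (-i') ω)) :
    ∃ l, InL (-((2 * K : ℕ) : ℤ)) (2 * K : ℕ) l ∧
      FF p r (r + 2 * K) (i' - i).toNat l (pull p (r + 2 * K) G (-i) ω) := by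
  have h1 := mem_orb r (2 * K) (pull p r G (-i') ω)
  rw [← h] at h1
  obtain ⟨l, hl, hl2⟩ := h1
  refine ⟨l, hl, fun y hy => ?_⟩
  rw [abs_le] at hi hi'
  have hly : InL (-(r : ℤ)) r (-l + y) := (InL.mono hl.neg (by omega) (by omega)).add hy
  have hj : (((i' - i).toNat : ℕ) : ℤ) = i' - i := Int.toNat_of_nonneg (by omega)
  have h2 : InL (-((r + 2 * K : ℕ) : ℤ)) (r + 2 * K : ℕ) (shL.symm^[(i' - i).toNat] y) := by
    rw [shL_symm_iterate, hj]
    exact InL.mono (InL_shZ hy (-(i' - i))) (by push_cast; omega) (by push_cast; omega)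
  have h3 : InL (-((r + 2 * K : ℕ) : ℤ)) (r + 2 * K : ℕ) (-l + y) :=
    InL.mono hly (by push_cast; omega) (by push_cast; omega)
  rw [exo_of _ h2, exo_of _ h3]
  unfold pull
  simp only
  rw [shL_symm_iterate, hj, shZ_shZ]
  have h4 := congrFun hl2 ⟨y, hy⟩
  unfold trp at h4
  simp only at h4
  rw [exo_of _ hly] at h4
  unfold pull at h4
  simp only at h4
  rw [← h4]
  congr 2
  ring

open Classical in
/-- summation over the positions -/
theorem out_bound {Ω Λ : Type} [Fintype Ω] [Fintype Λ] (K : ℕ) (ν : Ω → ℝ) (hν : ∀ ω, 0 ≤ ν ω)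
    (O : Ω → Prop) (F : ℤ → ℤ → Λ → Ω → Prop) (b : ℝ) (hb : 0 ≤ b)
    (hO : ∀ ω, ¬ O ω → ∃ (i i' : ℤ) (lm : Λ), |i| ≤ K ∧ |i'| ≤ K ∧ i < i' ∧ F i i' lm ω)
    (hF : ∀ (i i' : ℤ) (lm : Λ), |i| ≤ K → |i'| ≤ K → i < i' →
      (∑ ω, if F i i' lm ω then ν ω else 0) ≤ b) :
    (∑ ω, if ¬ O ω then ν ω else 0) ≤ (2 * K + 1) * (2 * K + 1) * Fintype.card Λ * b := by
  set I : Finset (ℤ × ℤ × Λ) := (Finset.Icc (-(K : ℤ)) K ×ˢ Finset.Icc (-(K : ℤ)) K ×ˢ
    (Finset.univ : Finset Λ)) with hI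
  set J := I.filter (fun x => x.1 < x.2.1) with hJ
  have h1 : ∀ ω, (if ¬ O ω then ν ω else 0) ≤
      ∑ x ∈ J, if F x.1 x.2.1 x.2.2 ω then ν ω else 0 := by
    intro ω
    have hnn : ∀ x ∈ J, 0 ≤ (if F x.1 x.2.1 x.2.2 ω then ν ω else 0) := by
      intro x _
      split_ifs
      · exact hν ω
      · exact le_rfl
    by_cases h2 : O ω
    · rw [if_neg (not_not.2 h2)]
      exact Finset.sum_nonneg hnn
    · rw [if_pos h2]
      obtain ⟨i, i', lm, hi, hi', hlt, hF'⟩ := hO ω h2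
      have hmem : (i, i', lm) ∈ J := by
        rw [hJ, Finset.mem_filter, hI, Finset.mem_product, Finset.mem_product, Finset.mem_Icc,
          Finset.mem_Icc]
        exact ⟨⟨abs_le.1 hi, abs_le.1 hi', Finset.mem_univ _⟩, hlt⟩
      calc ν ω = (if F i i' lm ω then ν ω else 0) := by rw [if_pos hF']
        _ ≤ _ := Finset.single_le_sum
            (f := fun x : ℤ × ℤ × Λ => if F x.1 x.2.1 x.2.2 ω then ν ω else 0) hnn hmem
  refine (Finset.sum_le_sum fun ω _ => h1 ω).trans ?_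
  rw [Finset.sum_comm]
  have h2 : ∀ x ∈ J, (∑ ω, if F x.1 x.2.1 x.2.2 ω then ν ω else 0) ≤ b := by
    intro x hx
    rw [hJ, Finset.mem_filter, hI, Finset.mem_product, Finset.mem_product, Finset.mem_Icc,
      Finset.mem_Icc] at hx
    exact hF _ _ _ (abs_le.2 hx.1.1) (abs_le.2 hx.1.2.1) hx.2
  refine (Finset.sum_le_sum h2).trans ?_
  rw [Finset.sum_const, nsmul_eq_mul]
  apply mul_le_mul_of_nonneg_right _ hb
  have h3 : J.card ≤ (2 * K + 1) * (2 * K + 1) * Fintype.card Λ := by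
    refine (Finset.card_filter_le _ _).trans (le_of_eq ?_)
    rw [hI, Finset.card_product, Finset.card_product, Int.card_Icc, Finset.card_univ]
    have : ((K : ℤ) + 1 - -(K : ℤ)).toNat = 2 * K + 1 := by omega
    rw [this, mul_assoc]
  exact_mod_cast h3

open Classical in
/-- the final estimate -/
theorem fin_bound {Ω Q : Type} [Fintype Ω] (K : ℕ) (μ ν : Ω → ℝ) (hμ : ∀ ω, 0 ≤ μ ω)
    (hν : ∀ ω, 0 ≤ ν ω) (hνμ : ∀ ω, ν ω ≤ μ ω) (c : ℤ → Ω → Q) (B : Q → Prop) (b₁ b₂ : ℝ)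
    (h1 : (∑ y, if (∀ i j : ℤ, |i| ≤ K → |j| ≤ K → c i y = c j y → i = j) ∧
          ((∀ i : ℕ, i ≤ K → ¬ B (c (-(i : ℤ)) y)) ∨ (∀ i : ℕ, 1 ≤ i → i ≤ K → ¬ B (c i y)))
        then μ y else 0) ≤ b₁)
    (h2 : (∑ y, if ¬ (∀ i j : ℤ, |i| ≤ K → |j| ≤ K → c i y = c j y → i = j) then ν y else 0) ≤ b₂)
    (N : Ω → Prop)
    (hN : ∀ ω, N ω → ((∀ i : ℕ, i ≤ K → ¬ B (c (-(i : ℤ)) ω)) ∨
        (∀ i : ℕ, 1 ≤ i → i ≤ K → ¬ B (c i ω)))) :
    (∑ y, if N y then ν y else 0) ≤ b₁ + b₂ := by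
  refine le_trans ?_ (add_le_add h1 h2)
  rw [← Finset.sum_add_distrib]
  apply Finset.sum_le_sum
  intro ω _
  by_cases h3 : N ω
  · rw [if_pos h3]
    by_cases h4 : ∀ i j : ℤ, |i| ≤ K → |j| ≤ K → c i ω = c j ω → i = j
    · rw [if_pos ⟨h4, hN ω h3⟩, if_neg (not_not.2 h4), add_zero]
      exact hνμ ω
    · rw [if_neg (fun h5 => h4 h5.1), if_pos h4, zero_add]
  · rw [if_neg h3]
    apply add_nonneg
    · split_ifs <;> first | exact hμ ω | exact le_rfl
    · split_ifs <;> first | exact hν ω | exact le_rfl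

/-- commutation with the spectral projections -/
theorem comm_EG (hA : S_SPA) {R : ℕ} {α : NN p → UU d} {t : UU d} (h : Act (SS p) R α t)
    (g : ℕ) (hg : g ≤ R) (ω : {y : Lam // InL (-(g : ℤ)) (g : ℤ) y} → ZMod p) {x : NN p}
    (hx : x ∈ SA p) (hx' : x ∈ WN p (-(R : ℤ)) R) : Commute (α x).1 (EG p α g ω) := by
  obtain ⟨-, -, -, -, h5, -⟩ := hA p R d α t h (-(g : ℤ)) g (by omega) (by omega)
  exact h5 _ x hx hx'

open Classical in
/-- the estimate for one pair of positions -/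
theorem pair_bound (hO : S_OK) (hA : S_SPA) {R : ℕ} {α : NN p → UU d} {t : UU d}
    (h : Act (SS p) R α t) {q : ℕ} (hq : 0 < q) {w v r g G K j : ℕ} (i : ℤ) (lm : Lam)
    (hi : |i| ≤ K) (hv : w + K ≤ v) (hvR : v ≤ R) (hg : g + K ≤ G) (hG : G ≤ R)
    (hPw : IsP (pA p q w α)) (hPv : IsP (pA p q v α))
    [Fintype {y : Lam // InL (-(g : ℤ)) (g : ℤ) y}] [Fintype {y : Lam // InL (-(G : ℤ)) (G : ℤ) y}]
    {b : ℝ} (hb : rtr (DD (EG p α g) (FF p r g j lm) * (1 - pA p q v α)) ≤ b) :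
    (∑ ω, if FF p r g j lm (pull p g G (-i) ω) then rtr ((1 - pA p q w α) * EG p α G ω) else 0)
      ≤ b := by
  have hEg : PV (EG p α g) := EG_pv hA h g (by omega)
  have h6 : rtr ((1 - pA p q w α) * cj t (-i) (DD (EG p α g) (FF p r g j lm))) ≤
      rtr (DD (EG p α g) (FF p r g j lm) * (1 - pA p q v α)) :=
    shift_bound hO h hq w v i (by omega) hvR hPw hPv (DD_isP hEg _)
      (fun x hx hx' => comm_DD (fun ω => comm_EG hA h g (by omega) ω hx hx') _)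
  have h7 : rtr ((1 - pA p q w α) * cj t (-i) (DD (EG p α g) (FF p r g j lm))) =
      ∑ ω, (if FF p r g j lm (pull p g G (-i) ω) then rtr ((1 - pA p q w α) * EG p α G ω)
        else 0) := by
    rw [refine_shift hA h g G (-i) (by rw [abs_neg]; omega) hG, rtr_mul_DD]
  rw [← h7]
  exact h6.trans hb

open Classical in
theorem core (hO : S_OK) (hM : S_MARK) (hA : S_SPA) {R : ℕ} {α : NN p → UU d} {t : UU d}
    (h : Act (SS p) R α t) {q : ℕ} (hq : 0 < q) {w r g G K l : ℕ} (hl : 0 < l)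
    (hw : 2 * K ≤ w) (hr : w + 2 * K ≤ r) (hg : g = r + 2 * K) (hG : G = g + 2 * K) (hR : G ≤ R)
    [Fintype {y : Lam // InL (-(r : ℤ)) (r : ℤ) y}]
    [Fintype {y : Lam // InL (-(g : ℤ)) (g : ℤ) y}] [Fintype {y : Lam // InL (-(G : ℤ)) (G : ℤ) y}]
    [Fintype {y : Lam // InL (-((2 * K : ℕ) : ℤ)) ((2 * K : ℕ) : ℤ) y}]
    (hPw : IsP (pA p q w α)) (hPv : IsP (pA p q (w + 2 * K) α))
    (hAc : ∀ n ∈ WN p (-(w : ℤ)) w, Commute (α n).1 (pA p q w α))
    {b : ℝ} (hb0 : 0 ≤ b)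
    (hb : ∀ (j : ℕ) (lm : Lam), 0 < j → j ≤ 2 * K → InL (-((2 * K : ℕ) : ℤ)) (2 * K : ℕ) lm →
      rtr (DD (EG p α g) (FF p r g j lm) * (1 - pA p q (w + 2 * K) α)) ≤ b) :
    ∃ e : Mt d, Mk (SS p) (2 * K) α t e (1 - pA p q w α) ∧
        rtr e ≤ 2 / l * d ∧
        rtr ((1 - pA p q w α) * uB t e K) ≤ 4 * (1 - 1 / (l : ℝ)) ^ K * d + (2 * K + 1) *
          (2 * K + 1) * Fintype.card {y : Lam // InL (-((2 * K : ℕ) : ℤ)) ((2 * K : ℕ) : ℤ) y} * b ∧
        rtr ((1 - pA p q w α) * uF t e K) ≤ 4 * (1 - 1 / (l : ℝ)) ^ K * d + (2 * K + 1) *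
          (2 * K + 1) * Fintype.card {y : Lam // InL (-((2 * K : ℕ) : ℤ)) ((2 * K : ℕ) : ℤ) y} * b := by
  have hE : PV (EG p α G) := EG_pv hA h G (by omega)
  have hEr : PV (EG p α r) := EG_pv hA h r (by omega)
  set A := pA p q w α with hAdef
  have hAm : ∀ i : ℤ, |i| ≤ (2 * K : ℕ) → cj t i A ∈ SpA R α := fun i hi =>
    cj_pA_mem hO h q w i (by push_cast at hi ⊢; omega)
  have hAE : ∀ i : ℤ, |i| ≤ (2 * K : ℕ) → ∀ ω, Commute (cj t i A) (EG p α G ω) := fun i hi ω =>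
    comm_of_SpA (hAm i hi) (fun x hx hx' => comm_EG hA h G (by omega) ω hx hx')
  have hAE0 : ∀ ω, Commute A (EG p α G ω) := by
    intro ω
    have := hAE 0 (by simp) ω
    rwa [cj_zero] at this
  -- measures
  have hμ : ∀ ω, 0 ≤ rtr (EG p α G ω) := fun ω => rtr_nonneg (hE.isP ω)
  have hν : ∀ ω, 0 ≤ rtr ((1 - A) * EG p α G ω) := fun ω => rtr_nonneg (isP_mul
    (isP_one_sub hPw) (hE.isP ω) (Commute.sub_left (Commute.one_left _) (hAE0 ω)))
  have hνμ : ∀ ω, rtr ((1 - A) * EG p α G ω) ≤ rtr (EG p α G ω) := by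
    intro ω
    have h1 := rtr_nonneg (isP_mul hPw (hE.isP ω) (hAE0 ω))
    rw [sub_mul, one_mul, rtr_sub]
    linarith
  have hμsum : ∑ ω, rtr (EG p α G ω) = d := by
    rw [← rtr_sum, hE.sum, rtr_one]
  -- the classes and the marks
  obtain ⟨B, hB1, hB2⟩ := hM ({y : Lam // InL (-(G : ℤ)) (G : ℤ) y} → ZMod p)
    (Set ({y : Lam // InL (-(r : ℤ)) (r : ℤ) y} → ZMod p)) (fun ω => rtr (EG p α G ω)) hμ K l hl
    (fun i ω => orb p r (2 * K) (pull p r G (-i) ω))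
  rw [hμsum] at hB1 hB2
  set e : Mt d := DD (EG p α r) (fun ω => B (orb p r (2 * K) ω)) with he
  have hcj : ∀ i : ℤ, |i| ≤ (2 * K : ℕ) → cj t i e =
      DD (EG p α G) (fun ω => B (orb p r (2 * K) (pull p r G (- -i) ω))) := by
    intro i hi
    rw [he, refine_shift hA h r G i (by push_cast at hi ⊢; omega) (by omega), neg_neg]
  have hcj0 : e = DD (EG p α G) (fun ω => B (orb p r (2 * K) (pull p r G (-0) ω))) := by
    have h1 := hcj 0 (by simp)
    rw [cj_zero, neg_zero, neg_zero] at h1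
    rw [neg_zero]
    exact h1
  -- the part with distinct classes
  have hOut : (∑ ω, if ¬ (∀ i j : ℤ, |i| ≤ K → |j| ≤ K →
      orb p r (2 * K) (pull p r G (-i) ω) = orb p r (2 * K) (pull p r G (-j) ω) → i = j) then
        rtr ((1 - A) * EG p α G ω) else 0) ≤ (2 * K + 1) *
          (2 * K + 1) * Fintype.card {y : Lam // InL (-((2 * K : ℕ) : ℤ)) ((2 * K : ℕ) : ℤ) y} * b := by
    apply out_bound K (fun ω => rtr ((1 - A) * EG p α G ω)) hν
      (fun ω => ∀ i j : ℤ, |i| ≤ K → |j| ≤ K →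
        orb p r (2 * K) (pull p r G (-i) ω) = orb p r (2 * K) (pull p r G (-j) ω) → i = j)
      (fun i i' (lm : {y : Lam // InL (-((2 * K : ℕ) : ℤ)) ((2 * K : ℕ) : ℤ) y}) ω =>
        FF p r g (i' - i).toNat lm.1 (pull p g G (-i) ω)) b hb0
    · intro ω h2
      obtain ⟨i, i', hi, hi', hlt, hc⟩ : ∃ i i' : ℤ, |i| ≤ K ∧ |i'| ≤ K ∧ i < i' ∧
          orb p r (2 * K) (pull p r G (-i) ω) = orb p r (2 * K) (pull p r G (-i') ω) := by
        by_contra hcon
        push Not at hcon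
        apply h2
        intro i j hi hj hij
        rcases lt_trichotomy i j with h3 | h3 | h3
        · exact absurd hij (hcon i j hi hj h3)
        · exact h3
        · exact absurd hij.symm (hcon j i hj hi h3)
      obtain ⟨lm, hlm, hFF⟩ := FF_of_orb (by omega) hi hi' hlt ω hc
      subst hg
      exact ⟨i, i', ⟨lm, hlm⟩, hi, hi', hlt, hFF⟩
    · intro i i' lm hi hi' hlt
      have hi1 := abs_le.1 hi
      have hi2 := abs_le.1 hi'
      exact pair_bound hO hA h hq (K := K) i lm.1 hi (by omega) (by omega) (by omega) hR hPw hPv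
        (hb (i' - i).toNat lm.1 (by omega) (by omega) lm.2)
  have hfin : ∀ N : ({y : Lam // InL (-(G : ℤ)) (G : ℤ) y} → ZMod p) → Prop,
      (∀ ω, N ω → ((∀ i : ℕ, i ≤ K → ¬ B (orb p r (2 * K) (pull p r G (- -(i : ℤ)) ω))) ∨
        (∀ i : ℕ, 1 ≤ i → i ≤ K → ¬ B (orb p r (2 * K) (pull p r G (-(i : ℤ)) ω))))) →
      rtr ((1 - A) * DD (EG p α G) N) ≤ 4 * (1 - 1 / (l : ℝ)) ^ K * d + (2 * K + 1) *
          (2 * K + 1) * Fintype.card {y : Lam // InL (-((2 * K : ℕ) : ℤ)) ((2 * K : ℕ) : ℤ) y} * b := by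
    intro N hN
    rw [rtr_mul_DD]
    exact fin_bound K (fun ω => rtr (EG p α G ω)) (fun ω => rtr ((1 - A) * EG p α G ω)) hμ hν hνμ
      (fun i ω => orb p r (2 * K) (pull p r G (-i) ω)) B _ _ hB2 hOut N hN
  refine ⟨e, ?_, ?_, ?_, ?_⟩
  · -- the structure
    have hq1 : ∀ i : ℤ, cj t i (1 - A) = 1 - cj t i A := fun i => by rw [cj_sub, cj_one]
    refine ⟨DD_isP hEr _, isP_one_sub hPw, ?_, ?_, ?_, ?_, ?_⟩
    · intro i j hi hj
      rw [hcj i hi, hcj j hj]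
      exact DD_comm hE _ _
    · intro i j hi hj
      rw [hcj i hi, hq1]
      apply Commute.sub_right (Commute.one_right _)
      exact (comm_DD (hAE j hj) _).symm
    · intro i j hi hj
      rw [hq1, hq1]
      exact Commute.sub_right (Commute.one_right _) (Commute.sub_left (Commute.one_left _)
        (SpA_comm h (hAm i hi) (hAm j hj)))
    · intro n hn
      change n ∈ WN p (-((2 * K : ℕ) : ℤ)) (2 * K : ℕ) at hn
      have hx1 : (⟨n.a, 0⟩ : NN p) ∈ WN p (-((2 * K : ℕ) : ℤ)) (2 * K : ℕ) :=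
        ⟨InL.zero _ _, hn.2⟩
      have hx2 : (⟨0, n.l⟩ : NN p) ∈ WN p (-((2 * K : ℕ) : ℤ)) (2 * K : ℕ) :=
        ⟨hn.1, fun y hy => absurd rfl hy⟩
      have hx12 : (⟨n.a, 0⟩ : NN p) * ⟨0, n.l⟩ = n := by
        ext1
        · rw [NN.mul_a]
          simp
        · rw [NN.mul_l]
          simp
      have h1 := h.mul ⟨n.a, 0⟩ (WN_mono hO (by push_cast; omega) (by push_cast; omega) hx1)
        ⟨0, n.l⟩ (WN_mono hO (by push_cast; omega) (by push_cast; omega) hx2)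
      rw [hx12] at h1
      have h2 : (α n).1 = (α ⟨n.a, 0⟩).1 * (α ⟨0, n.l⟩).1 := by rw [h1]; rfl
      rw [h2]
      apply Commute.mul_left
      · apply comm_DD
        intro ω
        exact comm_EG hA h r (by omega) ω rfl
          (WN_mono hO (by push_cast; omega) (by push_cast; omega) hx1)
      · exact comm_SL hA h (by omega) (by omega) B rfl hx2
          (WN_mono hO (by push_cast; omega) (by push_cast; omega) hx2)
    · intro n hn
      change n ∈ WN p (-((2 * K : ℕ) : ℤ)) (2 * K : ℕ) at hn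
      apply Commute.sub_right (Commute.one_right _)
      exact hAc n (WN_mono hO (by push_cast; omega) (by push_cast; omega) hn)
  · rw [hcj0, rtr_DD]
    exact hB1
  · have h1 : uB t e K = DD (EG p α G)
        (fun ω => ∀ i < K + 1, ¬ B (orb p r (2 * K) (pull p r G (- -(i : ℤ)) ω))) := by
      unfold uB
      apply list_prod_DD hE (fun i : ℕ => 1 - cj t i e)
        (fun i ω => ¬ B (orb p r (2 * K) (pull p r G (- -(i : ℤ)) ω)))
      intro i hi
      rw [hcj i (by rw [abs_of_nonneg (by positivity)]; push_cast; omega), one_sub_DD hE]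
    rw [h1]
    apply hfin
    intro ω hω
    left
    intro i hi
    exact hω i (by omega)
  · have h1 : uF t e K = DD (EG p α G)
        (fun ω => ∀ i < K, ¬ B (orb p r (2 * K) (pull p r G (-((i : ℤ) + 1)) ω))) := by
      unfold uF
      apply list_prod_DD hE (fun i : ℕ => 1 - cj t (-((i : ℤ) + 1)) e)
        (fun i ω => ¬ B (orb p r (2 * K) (pull p r G (-((i : ℤ) + 1)) ω)))
      intro i hi
      rw [hcj (-((i : ℤ) + 1)) (by
        rw [abs_neg, abs_of_nonneg (by positivity)]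
        push_cast
        omega), one_sub_DD hE, neg_neg]
    rw [h1]
    apply hfin
    intro ω hω
    right
    intro i hi1 hi2
    have h2 := hω (i - 1) (by omega)
    have h3 : (((i - 1 : ℕ) : ℤ) + 1) = (i : ℤ) := by omega
    rwa [h3] at h2

theorem t_STEPA (hO : S_OK) (hM : S_MARK) (hA : S_SPA) (hC : S_CLH) (hP : S_PROJ) : S_STEPA := by
  intro p _ l K ε hl hε
  have hfk := finite_lam hO p (-((2 * K : ℕ) : ℤ)) (2 * K : ℕ)
  have ik := Fintype.ofFinite {y : Lam // InL (-((2 * K : ℕ) : ℤ)) ((2 * K : ℕ) : ℤ) y}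
  obtain ⟨NL, hNL⟩ : ∃ NL : ℕ,
      NL = Fintype.card {y : Lam // InL (-((2 * K : ℕ) : ℤ)) ((2 * K : ℕ) : ℤ) y} := ⟨_, rfl⟩
  set T : ℝ := (2 * K + 1) * (2 * K + 1) * NL with hT
  have hT0 : 0 ≤ T := by positivity
  obtain ⟨m, hm⟩ := exists_nat_gt (max (T / ε) 0)
  have hm0 : (0 : ℝ) < m := (le_max_right _ _).trans_lt hm
  have hm0' : 0 < m := by exact_mod_cast hm0
  have hTm : T * (1 / (m : ℝ)) ≤ ε := by
    have h1 := (le_max_left (T / ε) 0).trans hm.le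
    rw [div_le_iff₀ hε] at h1
    rw [mul_one_div, div_le_iff₀ hm0]
    linarith
  obtain ⟨q, hq, hC1⟩ := hC p (2 * K) m hm0'
  refine ⟨q, hq, fun w hw => ?_⟩
  obtain ⟨r0, hr0⟩ := hC1 (w + 2 * K)
  obtain ⟨r, hr1, hr2⟩ : ∃ r, r0 ≤ r ∧ w + 2 * K ≤ r :=
    ⟨max r0 (w + 2 * K), le_max_left _ _, le_max_right _ _⟩
  refine ⟨r + 2 * K + 2 * K + 1, fun R hR d α t h => ?_⟩
  have f1 := finite_lam hO p (-(r : ℤ)) r
  have f2 := finite_lam hO p (-((r + 2 * K : ℕ) : ℤ)) (r + 2 * K : ℕ)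
  have f3 := finite_lam hO p (-((r + 2 * K + 2 * K : ℕ) : ℤ)) (r + 2 * K + 2 * K : ℕ)
  have i1 := Fintype.ofFinite {y : Lam // InL (-(r : ℤ)) (r : ℤ) y}
  have i2 := Fintype.ofFinite {y : Lam // InL (-((r + 2 * K : ℕ) : ℤ)) ((r + 2 * K : ℕ) : ℤ) y}
  have i3 := Fintype.ofFinite
    {y : Lam // InL (-((r + 2 * K + 2 * K : ℕ) : ℤ)) ((r + 2 * K + 2 * K : ℕ) : ℤ) y}
  have hP1 := hP p q q w w R hq hq (dvd_refl q) le_rfl (by omega) d α t h
  have hP2 := hP p q q (w + 2 * K) (w + 2 * K) R hq hq (dvd_refl q) le_rfl (by omega) d α t h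
  obtain ⟨e, he1, he2, he3, he4⟩ := core hO hM hA h hq hl hw hr2 rfl rfl (by omega)
    hP1.1 hP2.1 hP1.2.2.1 (b := 1 / (m : ℝ) * d) (by positivity)
    (fun j lm hj1 hj2 hlm => hr0 r hr1 R d α t (by omega) h j lm hj1 hj2 hlm i2)
  have hle : 4 * (1 - 1 / (l : ℝ)) ^ K * d + (2 * K + 1) *
          (2 * K + 1) * Fintype.card {y : Lam // InL (-((2 * K : ℕ) : ℤ)) ((2 * K : ℕ) : ℤ) y} *
            (1 / (m : ℝ) * d) ≤ (4 * (1 - 1 / (l : ℝ)) ^ K + ε) * d := by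
    rw [← hNL, ← hT, add_mul, ← mul_assoc]
    exact add_le_add le_rfl (mul_le_mul_of_nonneg_right hTm (Nat.cast_nonneg d))
  exact ⟨e, he1, he2, he3.trans hle, he4.trans hle⟩

end

end Pool.Agent.N596.AS
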