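import Pool.Agent.N596.AS.Shf

/-! Project AS, part STEPA: averages over the kernel of the folding map. -/

set_option autoImplicit false

namespace Pool.Agent.N596.AS

open Finset Matrix
open Pool.Agent.N139.AS

noncomputable section

theorem zpow_inv {G : Type*} [Group G] (σ : MulAut G) (Pr : ℤ → G → Prop)
    (h : ∀ i x, Pr (i + 1) (σ x) ↔ Pr i x) (i : ℤ) : ∀ (j : ℤ) (x : G),
      Pr (j + i) ((σ ^ i) x) ↔ Pr j x := by
  induction i using Int.induction_on with
  | zero => intro j x; simp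
  | succ k ih =>
    intro j x
    have e1 : (σ ^ ((k : ℤ) + 1)) x = σ ((σ ^ (k : ℤ)) x) := by
      rw [add_comm, _root_.zpow_one_add, MulAut.mul_apply]
    have e2 : j + ((k : ℤ) + 1) = (j + k) + 1 := by ring
    rw [e1, e2, h, ih]
  | pred k ih =>
    intro j x
    have e1 : σ ((σ ^ (-(k : ℤ) - 1)) x) = (σ ^ (-(k : ℤ))) x := by
      rw [← MulAut.mul_apply, ← _root_.zpow_one_add]
      congr 2
      ring
    have e2 : j + (-(k : ℤ) - 1) + 1 = j + -(k : ℤ) := by ring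
    rw [← h, e1, e2, ih]

variable {p : ℕ} [hp : Fact p.Prime] {d : ℕ}

theorem WN_mono (hO : S_OK) {a b a' b' : ℤ} (ha : a' ≤ a) (hb : b ≤ b') {x : NN p}
    (hx : x ∈ WN p a b) : x ∈ WN p a' b' := (hO p).mono a b a' b' ha hb hx

theorem shN_mem (hO : S_OK) (i a b : ℤ) (x : NN p) (hx : x ∈ WN p a b) :
    (shN p ^ i) x ∈ WN p (a + i) (b + i) := by
  have h := zpow_inv (shN p) (fun j x => x ∈ WN p (a + j) (b + j)) (fun j x => by
    have h1 := (hO p).shift (a + j) (b + j) x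
    have e1 : a + (j + 1) = a + j + 1 := by ring
    have e2 : b + (j + 1) = b + j + 1 := by ring
    rw [e1, e2]
    exact h1) i 0 x
  simp only [zero_add, add_zero] at h
  exact h.2 hx

theorem shN_SA (i : ℤ) (x : NN p) (hx : x ∈ SA p) : (shN p ^ i) x ∈ SA p := by
  have h := zpow_inv (shN p) (fun _ x => x ∈ SA p) (fun j x => by
    change shL x.l = 0 ↔ x.l = 0
    exact map_eq_zero_iff shL shL.injective) i 0 x
  exact h.2 hx

theorem shN_fN (hO : S_OK) {q : ℕ} (hq : 0 < q) (i : ℤ) (x : NN p) (hx : fN p q x = 1) :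
    fN p q ((shN p ^ i) x) = 1 := by
  have h := zpow_inv (shN p) (fun _ x => fN p q x = 1) (fun j x => (hO p).f_ker q x hq) i 0 x
  exact h.2 hx

theorem al_cj_nat (hO : S_OK) {R : ℕ} {α : NN p → UU d} {t : UU d} (h : Act (SS p) R α t)
    (k : ℕ) : ∀ (a b : ℤ) (x : NN p), x ∈ WN p a b → -R ≤ a → b + k ≤ R →
      cj t k (α x).1 = (α ((shN p ^ (k : ℤ)) x)).1 := by
  induction k with
  | zero =>
    intro a b x hx ha hb
    simp only [Nat.cast_zero, _root_.zpow_zero, MulAut.one_apply]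
    exact cj_zero t _
  | succ k ih =>
    intro a b x hx ha hb
    push_cast at hb
    have h1 := ih a b x hx ha (by omega)
    have h9 : cj t ((k + 1 : ℕ) : ℤ) (α x).1 = cj t 1 (cj t k (α x).1) := by
      rw [cj_cj]
      congr 1
      push_cast
      omega
    have h2 : (shN p ^ (k : ℤ)) x ∈ WN p (-R) (R - 1) :=
      WN_mono hO (by omega) (by omega) (shN_mem hO k a b x hx)
    have h3 := h.rel _ h2
    have h4 : t.1 * (α ((shN p ^ (k : ℤ)) x)).1 = (α (shN p ((shN p ^ (k : ℤ)) x))).1 * t.1 :=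
      congrArg Subtype.val h3
    rw [h9, h1]
    unfold cj
    have e1 : (t ^ (1 : ℤ) : UU d).1 = t.1 := by rw [_root_.zpow_one]
    rw [e1, h4, mul_assoc]
    have e2 : t.1 * (t ^ (-1 : ℤ) : UU d).1 = 1 := by
      have := tpow_neg t 1
      rwa [e1] at this
    rw [e2, mul_one]
    have e3 : (shN p ^ ((k + 1 : ℕ) : ℤ)) x = shN p ((shN p ^ (k : ℤ)) x) := by
      rw [Nat.cast_add, Nat.cast_one, add_comm, _root_.zpow_one_add, MulAut.mul_apply]
    rw [e3]

theorem al_cj (hO : S_OK) {R : ℕ} {α : NN p → UU d} {t : UU d} (h : Act (SS p) R α t)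
    (i a b : ℤ) (x : NN p) (hx : x ∈ WN p a b) (h1 : -R ≤ a) (h2 : b ≤ R) (h3 : -R ≤ a + i)
    (h4 : b + i ≤ R) : cj t i (α x).1 = (α ((shN p ^ i) x)).1 := by
  obtain ⟨k, rfl | rfl⟩ := Int.eq_nat_or_neg i
  · exact al_cj_nat hO h k a b x hx h1 h4
  · have h5 := al_cj_nat hO h k (a + -(k : ℤ)) (b + -(k : ℤ)) ((shN p ^ (-(k : ℤ))) x)
      (shN_mem hO _ a b x hx) h3 (by omega)
    have e3 : (shN p ^ (k : ℤ)) ((shN p ^ (-(k : ℤ))) x) = x := by
      rw [← MulAut.mul_apply, ← _root_.zpow_add, add_neg_cancel, _root_.zpow_zero,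
        MulAut.one_apply]
    rw [e3] at h5
    rw [← h5, cj_cj, neg_add_cancel, cj_zero]

/-- the algebra spanned by the functions in the window -/
def SpA (R : ℕ) (α : NN p → UU d) : Submodule ℂ (Mt d) :=
  Submodule.span ℂ {M | ∃ x, x ∈ SA p ∧ x ∈ WN p (-(R : ℤ)) R ∧ M = (α x).1}

theorem comm_of_SpA {R : ℕ} {α : NN p → UU d} {M M' : Mt d} (hM : M ∈ SpA R α)
    (h : ∀ x ∈ SA p, x ∈ WN p (-(R : ℤ)) R → Commute (α x).1 M') : Commute M M' := by
  unfold SpA at hM
  induction hM using Submodule.span_induction with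
  | mem x hx =>
    obtain ⟨y, hy1, hy2, rfl⟩ := hx
    exact h y hy1 hy2
  | zero => exact Commute.zero_left M'
  | add x y _ _ hx hy => exact hx.add_left hy
  | smul c x _ hx => exact hx.smul_left c

theorem SA_comm {x y : NN p} (hx : x ∈ SA p) (hy : y ∈ SA p) : x * y = y * x := by
  have h1 : x.l = 0 := hx
  have h2 : y.l = 0 := hy
  ext i
  · rw [NN.mul_a, NN.mul_a, h1, h2, Finsupp.add_apply, Finsupp.add_apply, trl_apply, trl_apply,
      neg_zero, zero_add, add_comm]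
  · rw [NN.mul_l, NN.mul_l, h1, h2]

theorem al_comm {R : ℕ} {α : NN p → UU d} {t : UU d} (h : Act (SS p) R α t) {x y : NN p}
    (hx : x ∈ SA p) (hx' : x ∈ WN p (-(R : ℤ)) R) (hy : y ∈ SA p)
    (hy' : y ∈ WN p (-(R : ℤ)) R) : Commute (α x).1 (α y).1 := by
  have h1 : α (x * y) = α x * α y := h.mul x hx' y hy'
  have h2 : α (y * x) = α y * α x := h.mul y hy' x hx'
  have h3 : α x * α y = α y * α x := by rw [← h1, ← h2, SA_comm hx hy]
  exact congrArg Subtype.val h3

theorem SpA_comm {R : ℕ} {α : NN p → UU d} {t : UU d} (h : Act (SS p) R α t) {M M' : Mt d}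
    (hM : M ∈ SpA R α) (hM' : M' ∈ SpA R α) : Commute M M' :=
  comm_of_SpA hM fun x hx hx' => (comm_of_SpA hM' fun _ hy hy' =>
    (al_comm h hx hx' hy hy').symm).symm

/-- the set over which the average is taken -/
def TA (p q w : ℕ) : Set (NN p) := {n | n ∈ SA p ∧ fN p q n = 1 ∧ n ∈ WN p (-w) w}

theorem TA_finite (hO : S_OK) (p : ℕ) [Fact p.Prime] (q w : ℕ) : (TA p q w).Finite := by
  have h1 : Finite (WN p (-(w : ℤ)) w) := (hO p).fin (-(w : ℤ)) w
  have h2 : ((WN p (-(w : ℤ)) w : Subgroup (NN p)) : Set (NN p)).Finite := Set.toFinite _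
  exact h2.subset fun x hx => hx.2.2

theorem one_mem_TA (q w : ℕ) : (1 : NN p) ∈ TA p q w :=
  ⟨(SA p).one_mem, map_one _, (WN p (-(w : ℤ)) w).one_mem⟩

theorem pA_eq (hO : S_OK) (q w : ℕ) (α : NN p → UU d) :
    pA p q w α = (((TA_finite hO p q w).toFinset.card : ℂ)⁻¹) •
      ∑ n ∈ (TA_finite hO p q w).toFinset, (α n).1 := by
  have h1 : pA p q w α = avS α (TA p q w) := rfl
  rw [h1]
  unfold avS
  rw [finsum_mem_eq_finite_toFinset_sum _ (TA_finite hO p q w),
    Nat.card_eq_card_finite_toFinset (TA_finite hO p q w)]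

theorem card_ne (hO : S_OK) (q w : ℕ) : ((TA_finite hO p q w).toFinset.card : ℂ) ≠ 0 := by
  have h1 : 0 < (TA_finite hO p q w).toFinset.card := by
    rw [Finset.card_pos]
    exact ⟨1, by rw [Set.Finite.mem_toFinset]; exact one_mem_TA q w⟩
  exact_mod_cast h1.ne'

theorem cj_pA (hO : S_OK) {R : ℕ} {α : NN p → UU d} {t : UU d} (h : Act (SS p) R α t)
    (q w : ℕ) (i : ℤ) (hi : w + |i| ≤ R) :
    cj t i (pA p q w α) = (((TA_finite hO p q w).toFinset.card : ℂ)⁻¹) •
      ∑ n ∈ (TA_finite hO p q w).toFinset, (α ((shN p ^ i) n)).1 := by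
  have hi1 := neg_abs_le i
  have hi2 := le_abs_self i
  rw [pA_eq hO, cj_smul, cj_sum]
  congr 1
  apply Finset.sum_congr rfl
  intro n hn
  rw [Set.Finite.mem_toFinset] at hn
  exact al_cj hO h i (-(w : ℤ)) w n hn.2.2 (by omega) (by omega) (by omega) (by omega)

theorem cj_pA_mem (hO : S_OK) {R : ℕ} {α : NN p → UU d} {t : UU d} (h : Act (SS p) R α t)
    (q w : ℕ) (i : ℤ) (hi : w + |i| ≤ R) : cj t i (pA p q w α) ∈ SpA R α := by
  have hi1 := neg_abs_le i
  have hi2 := le_abs_self i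
  rw [cj_pA hO h q w i hi]
  apply Submodule.smul_mem
  apply Submodule.sum_mem
  intro n hn
  rw [Set.Finite.mem_toFinset] at hn
  apply Submodule.subset_span
  exact ⟨_, shN_SA i n hn.1, WN_mono hO (by omega) (by omega) (shN_mem hO i _ _ n hn.2.2), rfl⟩

theorem pA_mem (hO : S_OK) {R : ℕ} {α : NN p → UU d} {t : UU d} (h : Act (SS p) R α t)
    (q w : ℕ) (hw : w ≤ R) : pA p q w α ∈ SpA R α := by
  have h1 := cj_pA_mem hO h q w 0 (by simpa using hw)
  rwa [cj_zero] at h1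

/-- absorption -/
theorem al_pA (hO : S_OK) {R : ℕ} {α : NN p → UU d} {t : UU d} (h : Act (SS p) R α t)
    (q v : ℕ) (hv : v ≤ R) {x : NN p} (hx : x ∈ TA p q v) :
    (α x).1 * pA p q v α = pA p q v α := by
  classical
  rw [pA_eq hO, Matrix.mul_smul, Finset.mul_sum]
  congr 1
  have h1 : ∀ n ∈ (TA_finite hO p q v).toFinset, (α x).1 * (α n).1 = (α (x * n)).1 := by
    intro n hn
    rw [Set.Finite.mem_toFinset] at hn
    have h2 := h.mul x (WN_mono hO (by omega) (by omega) hx.2.2) n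
      (WN_mono hO (by omega) (by omega) hn.2.2)
    rw [h2]
    rfl
  rw [Finset.sum_congr rfl h1]
  refine Finset.sum_bij' (fun n _ => x * n) (fun n _ => x⁻¹ * n) ?_ ?_ ?_ ?_ ?_
  · intro n hn
    rw [Set.Finite.mem_toFinset] at hn ⊢
    exact ⟨(SA p).mul_mem hx.1 hn.1, by rw [map_mul, hx.2.1, hn.2.1, one_mul],
      (WN p (-(v : ℤ)) v).mul_mem hx.2.2 hn.2.2⟩
  · intro n hn
    rw [Set.Finite.mem_toFinset] at hn ⊢
    exact ⟨(SA p).mul_mem ((SA p).inv_mem hx.1) hn.1,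
      by rw [map_mul, map_inv, hx.2.1, hn.2.1, inv_one, one_mul],
      (WN p (-(v : ℤ)) v).mul_mem ((WN p (-(v : ℤ)) v).inv_mem hx.2.2) hn.2.2⟩
  · intro n _; simp
  · intro n _; simp
  · intro n _; rfl

/-- the shifted average dominates the average over a larger window -/
theorem cj_pA_mul (hO : S_OK) {R : ℕ} {α : NN p → UU d} {t : UU d} (h : Act (SS p) R α t)
    {q : ℕ} (hq : 0 < q) (w v : ℕ) (i : ℤ) (hi : w + |i| ≤ v) (hv : v ≤ R) :
    cj t i (pA p q w α) * pA p q v α = pA p q v α := by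
  have hi1 := neg_abs_le i
  have hi2 := le_abs_self i
  rw [cj_pA hO h q w i (by omega), Matrix.smul_mul, Finset.sum_mul]
  have h1 : ∀ n ∈ (TA_finite hO p q w).toFinset, (α ((shN p ^ i) n)).1 * pA p q v α =
      pA p q v α := by
    intro n hn
    rw [Set.Finite.mem_toFinset] at hn
    apply al_pA hO h q v hv
    exact ⟨shN_SA i n hn.1, shN_fN hO hq i n hn.2.1,
      WN_mono hO (by omega) (by omega) (shN_mem hO i _ _ n hn.2.2)⟩
  rw [Finset.sum_congr rfl h1, Finset.sum_const, ← Nat.cast_smul_eq_nsmul ℂ, smul_smul,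
    inv_mul_cancel₀ (card_ne hO q w), one_smul]

/-- comparison of the shifted average with the average over a larger window -/
theorem shift_bound (hO : S_OK) {R : ℕ} {α : NN p → UU d} {t : UU d} (h : Act (SS p) R α t)
    {q : ℕ} (hq : 0 < q) (w v : ℕ) (i : ℤ) (hi : w + |i| ≤ v) (hv : v ≤ R)
    (hPw : IsP (pA p q w α)) (hPv : IsP (pA p q v α)) {Z : Mt d} (hZ : IsP Z)
    (hZc : ∀ x ∈ SA p, x ∈ WN p (-(R : ℤ)) R → Commute (α x).1 Z) :
    rtr ((1 - pA p q w α) * cj t (-i) Z) ≤ rtr (Z * (1 - pA p q v α)) := by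
  have hi0 := abs_nonneg i
  set A := pA p q w α with hA
  set A' := pA p q v α with hA'
  set A'' := cj t i A with hA''
  have h1 : rtr ((1 - A) * cj t (-i) Z) = rtr ((1 - A'') * Z) := by
    rw [← rtr_cj t i, cj_mul, cj_cj, add_neg_cancel, cj_zero, cj_sub, cj_one]
  have h2 : A'' * A' = A' := cj_pA_mul hO h hq w v i hi hv
  have hA'm : A' ∈ SpA R α := pA_mem hO h q v hv
  have hA''m : A'' ∈ SpA R α := cj_pA_mem hO h q w i (by omega)
  have hc1 : Commute A'' A' := SpA_comm h hA''m hA'm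
  have hc2 : Commute A' Z := comm_of_SpA hA'm hZc
  have hc3 : Commute A'' Z := comm_of_SpA hA''m hZc
  have hP1 : IsP (A'' * (1 - A')) := isP_mul (cj_isP t i hPw) (isP_one_sub hPv)
    (Commute.sub_right (Commute.one_right _) hc1)
  have hP2 : IsP (A'' * (1 - A') * Z) := by
    apply isP_mul hP1 hZ
    exact (hc3.mul_left (Commute.sub_left (Commute.one_left _) hc2))
  have h3 := rtr_nonneg hP2
  have h4 : A'' * (1 - A') * Z = (1 - A') * Z - (1 - A'') * Z := by
    rw [mul_sub, mul_one, h2, sub_mul, sub_mul, sub_mul, one_mul]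
    abel
  rw [h4, rtr_sub] at h3
  rw [h1, rtr_comm Z (1 - A')]
  linarith

end

end Pool.Agent.N596.AS
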