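import Pool.Agent.N139.AS.Stm

/-! Project AS, part STEPA: families of orthogonal projections with sum one. -/

set_option autoImplicit false

namespace Pool.Agent.N596.AS

open Finset Matrix
open Pool.Agent.N139.AS

noncomputable section

variable {d : ℕ}

theorem rtr_add (a b : Mt d) : rtr (a + b) = rtr a + rtr b := by
  unfold rtr
  rw [Matrix.trace_add, Complex.add_re]

theorem rtr_sub (a b : Mt d) : rtr (a - b) = rtr a - rtr b := by
  unfold rtr
  rw [Matrix.trace_sub, Complex.sub_re]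

theorem rtr_zero : rtr (0 : Mt d) = 0 := by
  unfold rtr
  rw [Matrix.trace_zero, Complex.zero_re]

theorem rtr_sum {ι : Type*} (s : Finset ι) (f : ι → Mt d) :
    rtr (∑ i ∈ s, f i) = ∑ i ∈ s, rtr (f i) := by
  unfold rtr
  rw [Matrix.trace_sum, Complex.re_sum]

theorem rtr_one : rtr (1 : Mt d) = d := by
  unfold rtr
  rw [Matrix.trace_one, Fintype.card_fin, Complex.natCast_re]

theorem rtr_comm (a b : Mt d) : rtr (a * b) = rtr (b * a) := by
  unfold rtr
  rw [Matrix.trace_mul_comm]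

theorem rtr_nonneg {e : Mt d} (h : IsP e) : 0 ≤ rtr e := by
  have h1 : e = eᴴ * e := by rw [h.1.eq, h.2]
  unfold rtr
  rw [h1, Matrix.trace, Complex.re_sum]
  apply Finset.sum_nonneg
  intro i _
  rw [Matrix.diag_apply, Matrix.mul_apply, Complex.re_sum]
  apply Finset.sum_nonneg
  intro j _
  rw [Matrix.conjTranspose_apply, Complex.star_def, Complex.conj_mul']
  norm_cast
  positivity

theorem isP_mul {e f : Mt d} (he : IsP e) (hf : IsP f) (h : Commute e f) : IsP (e * f) := by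
  refine ⟨?_, ?_⟩
  · rw [Matrix.IsHermitian, Matrix.conjTranspose_mul, he.1.eq, hf.1.eq]
    exact h.symm.eq
  · calc e * f * (e * f) = e * (f * e) * f := by simp only [mul_assoc]
      _ = e * (e * f) * f := by rw [h.eq]
      _ = (e * e) * (f * f) := by simp only [mul_assoc]
      _ = e * f := by rw [he.2, hf.2]

theorem isP_one_sub {e : Mt d} (he : IsP e) : IsP (1 - e) := by
  refine ⟨?_, ?_⟩
  · rw [Matrix.IsHermitian, Matrix.conjTranspose_sub, Matrix.conjTranspose_one, he.1.eq]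
  · rw [mul_sub, sub_mul, sub_mul, he.2]
    simp

/-- orthogonal projections with sum one -/
structure PV {Ω : Type} [Fintype Ω] {d : ℕ} (E : Ω → Mt d) : Prop where
  isP : ∀ ω, IsP (E ω)
  orth : ∀ ω ω', ω ≠ ω' → E ω * E ω' = 0
  sum : ∑ ω, E ω = 1

open Classical in
/-- the projection of a predicate -/
def DD {Ω : Type} [Fintype Ω] {d : ℕ} (E : Ω → Mt d) (P : Ω → Prop) : Mt d :=
  ∑ ω, if P ω then E ω else 0

variable {Ω : Type} [Fintype Ω] {E : Ω → Mt d}

theorem DD_congr {P P' : Ω → Prop} (h : ∀ ω, P ω ↔ P' ω) : DD E P = DD E P' := by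
  classical
  unfold DD
  apply Finset.sum_congr rfl
  intro ω _
  by_cases h1 : P ω
  · rw [if_pos h1, if_pos ((h ω).1 h1)]
  · rw [if_neg h1, if_neg (fun h2 => h1 ((h ω).2 h2))]

theorem DD_mul (hE : PV E) (P P' : Ω → Prop) : DD E P * DD E P' = DD E (fun ω => P ω ∧ P' ω) := by
  classical
  unfold DD
  rw [Finset.sum_mul_sum]
  apply Finset.sum_congr rfl
  intro ω _
  rw [Finset.sum_eq_single ω]
  · by_cases h1 : P ω
    · by_cases h2 : P' ω
      · rw [if_pos h1, if_pos h2, if_pos ⟨h1, h2⟩, (hE.isP ω).2]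
      · rw [if_neg h2, mul_zero, if_neg (fun h : P ω ∧ P' ω => h2 h.2)]
    · rw [if_neg h1, zero_mul, if_neg (fun h : P ω ∧ P' ω => h1 h.1)]
  · intro ω' _ hne
    by_cases h1 : P ω
    · by_cases h2 : P' ω'
      · rw [if_pos h1, if_pos h2, hE.orth _ _ (Ne.symm hne)]
      · rw [if_neg h2, mul_zero]
    · rw [if_neg h1, zero_mul]
  · intro h
    exact absurd (Finset.mem_univ ω) h

theorem DD_true (hE : PV E) : DD E (fun _ => True) = 1 := by
  unfold DD
  rw [← hE.sum]
  apply Finset.sum_congr rfl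
  intro ω _
  rw [if_pos trivial]

theorem one_sub_DD (hE : PV E) (P : Ω → Prop) : 1 - DD E P = DD E (fun ω => ¬ P ω) := by
  classical
  rw [← hE.sum]
  unfold DD
  rw [← Finset.sum_sub_distrib]
  apply Finset.sum_congr rfl
  intro ω _
  by_cases h1 : P ω
  · rw [if_pos h1, if_neg (not_not.2 h1), sub_self]
  · rw [if_neg h1, if_pos h1, sub_zero]

theorem DD_isP (hE : PV E) (P : Ω → Prop) : IsP (DD E P) := by
  classical
  refine ⟨?_, ?_⟩
  · unfold DD
    rw [Matrix.IsHermitian, Matrix.conjTranspose_sum]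
    apply Finset.sum_congr rfl
    intro ω _
    by_cases h1 : P ω
    · rw [if_pos h1, (hE.isP ω).1.eq]
    · rw [if_neg h1, Matrix.conjTranspose_zero]
  · rw [DD_mul hE]
    exact DD_congr fun ω => ⟨fun h => h.1, fun h => ⟨h, h⟩⟩

theorem DD_comm (hE : PV E) (P P' : Ω → Prop) : Commute (DD E P) (DD E P') := by
  rw [Commute, SemiconjBy, DD_mul hE, DD_mul hE]
  exact DD_congr fun ω => and_comm

theorem comm_DD {M : Mt d} (h : ∀ ω, Commute M (E ω)) (P : Ω → Prop) : Commute M (DD E P) := by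
  classical
  unfold DD
  apply Commute.sum_right
  intro ω _
  by_cases h1 : P ω
  · rw [if_pos h1]; exact h ω
  · rw [if_neg h1]; exact Commute.zero_right M

open Classical in
theorem rtr_mul_DD (M : Mt d) (P : Ω → Prop) :
    rtr (M * DD E P) = ∑ ω, if P ω then rtr (M * E ω) else 0 := by
  unfold DD
  rw [Finset.mul_sum, rtr_sum]
  apply Finset.sum_congr rfl
  intro ω _
  by_cases h1 : P ω
  · rw [if_pos h1, if_pos h1]
  · rw [if_neg h1, if_neg h1, mul_zero, rtr_zero]

open Classical in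
theorem rtr_DD (P : Ω → Prop) :
    rtr (DD E P) = ∑ ω, if P ω then rtr (E ω) else 0 := by
  have h := rtr_mul_DD (E := E) 1 P
  rw [one_mul] at h
  rw [h]
  apply Finset.sum_congr rfl
  intro ω _
  rw [one_mul]

/-- products of complements -/
theorem list_prod_DD (hE : PV E) (f : ℕ → Mt d) (P : ℕ → Ω → Prop) (n : ℕ)
    (h : ∀ i < n, f i = DD E (P i)) :
    ((List.range n).map f).prod = DD E (fun ω => ∀ i < n, P i ω) := by
  induction n with
  | zero =>
    rw [List.range_zero, List.map_nil, List.prod_nil, ← DD_true hE]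
    exact DD_congr fun ω => ⟨fun _ i hi => absurd hi (Nat.not_lt_zero i), fun _ => trivial⟩
  | succ n ih =>
    rw [List.range_succ, List.map_append, List.prod_append, ih (fun i hi => h i (by omega)),
      List.map_singleton, List.prod_singleton, h n (by omega), DD_mul hE]
    apply DD_congr
    intro ω
    constructor
    · rintro ⟨h1, h2⟩ i hi
      rcases Nat.lt_succ_iff_lt_or_eq.1 hi with h3 | h3
      · exact h1 i h3
      · rw [h3]; exact h2
    · intro h1
      exact ⟨fun i hi => h1 i (by omega), h1 n (by omega)⟩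

/-! ### conjugation -/

theorem cj_zero (t : UU d) (e : Mt d) : cj t 0 e = e := by
  unfold cj
  simp

theorem tpow_mul (t : UU d) (i j : ℤ) : (t ^ i : UU d).1 * (t ^ j : UU d).1 = (t ^ (i + j) : UU d).1 := by
  rw [_root_.zpow_add]
  rfl

theorem tpow_neg (t : UU d) (i : ℤ) : (t ^ i : UU d).1 * (t ^ (-i) : UU d).1 = 1 := by
  rw [tpow_mul, add_neg_cancel, zpow_zero]
  rfl

theorem tpow_neg' (t : UU d) (i : ℤ) : (t ^ (-i) : UU d).1 * (t ^ i : UU d).1 = 1 := by
  rw [tpow_mul, neg_add_cancel, zpow_zero]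
  rfl

theorem cj_mul (t : UU d) (i : ℤ) (a b : Mt d) : cj t i (a * b) = cj t i a * cj t i b := by
  unfold cj
  calc (t ^ i : UU d).1 * (a * b) * (t ^ (-i) : UU d).1
      = (t ^ i : UU d).1 * a * 1 * b * (t ^ (-i) : UU d).1 := by simp only [mul_assoc, one_mul]
    _ = (t ^ i : UU d).1 * a * ((t ^ (-i) : UU d).1 * (t ^ i : UU d).1) * b *
        (t ^ (-i) : UU d).1 := by rw [tpow_neg']
    _ = _ := by simp only [mul_assoc]

theorem cj_one (t : UU d) (i : ℤ) : cj t i 1 = 1 := by
  unfold cj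
  rw [mul_one, tpow_neg]

theorem cj_add (t : UU d) (i : ℤ) (a b : Mt d) : cj t i (a + b) = cj t i a + cj t i b := by
  unfold cj
  rw [mul_add, add_mul]

theorem cj_sub (t : UU d) (i : ℤ) (a b : Mt d) : cj t i (a - b) = cj t i a - cj t i b := by
  unfold cj
  rw [mul_sub, sub_mul]

theorem cj_z (t : UU d) (i : ℤ) : cj t i 0 = 0 := by
  unfold cj
  rw [mul_zero, zero_mul]

theorem cj_smul (t : UU d) (i : ℤ) (c : ℂ) (a : Mt d) : cj t i (c • a) = c • cj t i a := by
  unfold cj
  rw [Matrix.mul_smul, Matrix.smul_mul]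

theorem cj_sum {ι : Type*} (t : UU d) (i : ℤ) (s : Finset ι) (f : ι → Mt d) :
    cj t i (∑ j ∈ s, f j) = ∑ j ∈ s, cj t i (f j) := by
  unfold cj
  rw [Finset.mul_sum, Finset.sum_mul]

theorem cj_cj (t : UU d) (i j : ℤ) (a : Mt d) : cj t i (cj t j a) = cj t (i + j) a := by
  unfold cj
  calc (t ^ i : UU d).1 * ((t ^ j : UU d).1 * a * (t ^ (-j) : UU d).1) * (t ^ (-i) : UU d).1
      = ((t ^ i : UU d).1 * (t ^ j : UU d).1) * a * ((t ^ (-j) : UU d).1 * (t ^ (-i) : UU d).1) := by
        simp only [mul_assoc]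
    _ = _ := by rw [tpow_mul, tpow_mul, neg_add_rev]

theorem rtr_cj (t : UU d) (i : ℤ) (a : Mt d) : rtr (cj t i a) = rtr a := by
  unfold cj
  rw [rtr_comm, ← mul_assoc, tpow_neg', one_mul]

theorem cj_isP (t : UU d) (i : ℤ) {a : Mt d} (h : IsP a) : IsP (cj t i a) := by
  refine ⟨?_, ?_⟩
  · have h1 : ((t ^ i : UU d).1)ᴴ = (t ^ (-i) : UU d).1 := by
      rw [_root_.zpow_neg]
      rfl
    have h2 : ((t ^ (-i) : UU d).1)ᴴ = (t ^ i : UU d).1 := by
      rw [← h1, Matrix.conjTranspose_conjTranspose]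
    unfold cj
    rw [Matrix.IsHermitian, Matrix.conjTranspose_mul, Matrix.conjTranspose_mul, h1, h2, h.1.eq,
      mul_assoc]
  · rw [← cj_mul, h.2]

end

end Pool.Agent.N596.AS
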