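import Pool.Agent.N596.AS.Pvm

/-! Project AS, part STEPA: shifts of the spectral projections. -/

set_option autoImplicit false

namespace Pool.Agent.N596.AS

open Finset Matrix
open Pool.Agent.N139.AS

noncomputable section

/-- the shift by `i` on `Lam` -/
def shZ (i : ℤ) : Lam ≃+ Lam := Finsupp.domCongr (Equiv.addRight i)

theorem shZ_apply (i : ℤ) (l : Lam) (j : ℤ) : shZ i l j = l (j - i) := rfl

theorem shZ_shZ (i j : ℤ) (l : Lam) : shZ i (shZ j l) = shZ (i + j) l := by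
  ext k
  rw [shZ_apply, shZ_apply, shZ_apply]
  congr 1
  ring

theorem shZ_zero (l : Lam) : shZ 0 l = l := by
  ext k
  rw [shZ_apply, sub_zero]

theorem shL_symm (l : Lam) : shL.symm l = shZ (-1) l := by
  have h : shL (shZ (-1) l) = l := by
    change shZ 1 (shZ (-1) l) = l
    rw [shZ_shZ, add_neg_cancel, shZ_zero]
  rw [← h, AddEquiv.symm_apply_apply, h]

theorem shL_symm_iterate (j : ℕ) (l : Lam) : shL.symm^[j] l = shZ (-(j : ℤ)) l := by
  induction j with
  | zero => simp [shZ_zero]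
  | succ j ih =>
    rw [Function.iterate_succ_apply', ih, shL_symm, shZ_shZ]
    congr 1
    push_cast
    ring

theorem InL_shZ {a b : ℤ} {l : Lam} (h : InL a b l) (i : ℤ) : InL (a + i) (b + i) (shZ i l) := by
  intro j hj
  rw [shZ_apply] at hj
  have := h _ hj
  constructor <;> omega

theorem InL.mono {a b a' b' : ℤ} {l : Lam} (h : InL a b l) (ha : a' ≤ a) (hb : b ≤ b') :
    InL a' b' l := fun j hj => ⟨ha.trans (h j hj).1, (h j hj).2.trans_le hb⟩

variable {p : ℕ} [hp : Fact p.Prime] {d : ℕ}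

theorem exo_of {a b : ℤ} (ω : {y : Lam // InL a b y} → ZMod p) {y : Lam} (h : InL a b y) :
    exo p a b ω y = ω ⟨y, h⟩ := by
  unfold exo
  rw [dif_pos h]

/-- the spectral projections are shifted by `t` -/
theorem EE_cj_nat (hA : S_SPA) {R : ℕ} {α : NN p → UU d} {t : UU d} (h : Act (SS p) R α t)
    (k : ℕ) : ∀ (a b : ℤ) (ω : Lam → ZMod p), -R ≤ a → b + k ≤ R →
      cj t k (EE p α a b ω) = EE p α (a + k) (b + k) (fun y => ω (shZ (-(k : ℤ)) y)) := by
  induction k with
  | zero =>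
    intro a b ω ha hb
    simp only [Nat.cast_zero, add_zero, neg_zero, shZ_zero]
    exact cj_zero t _
  | succ k ih =>
    intro a b ω ha hb
    push_cast at hb
    have h1 := ih a b ω ha (by omega)
    obtain ⟨-, -, -, -, -, -, h7, -⟩ := hA p R d α t h (a + k) (b + k) (by omega) (by omega)
    have h8 := h7 (fun y => ω (shZ (-(k : ℤ)) y)) (by omega)
    have h9 : cj t ((k + 1 : ℕ) : ℤ) (EE p α a b ω) = cj t 1 (cj t k (EE p α a b ω)) := by
      rw [cj_cj]
      congr 1
      push_cast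
      ring
    rw [h9, h1]
    unfold cj
    have e1 : (t ^ (1 : ℤ) : UU d).1 = t.1 := by rw [zpow_one]
    rw [e1, h8, mul_assoc]
    have e2 : t.1 * (t ^ (-1 : ℤ) : UU d).1 = 1 := by
      have := tpow_neg t 1
      rwa [e1] at this
    rw [e2, mul_one]
    have e3 : ∀ y, shZ (-(k : ℤ)) (shL.symm y) = shZ (-((k + 1 : ℕ) : ℤ)) y := by
      intro y
      rw [shL_symm, shZ_shZ]
      congr 1
      push_cast
      ring
    simp only [e3]
    have e4 : a + k + 1 = a + ((k + 1 : ℕ) : ℤ) := by push_cast; omega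
    have e5 : b + k + 1 = b + ((k + 1 : ℕ) : ℤ) := by push_cast; omega
    rw [e4, e5]

theorem EE_cj (hA : S_SPA) {R : ℕ} {α : NN p → UU d} {t : UU d} (h : Act (SS p) R α t)
    (i a b : ℤ) (ω : Lam → ZMod p) (h1 : -R ≤ a) (h2 : b ≤ R) (h3 : -R ≤ a + i) (h4 : b + i ≤ R) :
    cj t i (EE p α a b ω) = EE p α (a + i) (b + i) (fun y => ω (shZ (-i) y)) := by
  obtain ⟨k, rfl | rfl⟩ := Int.eq_nat_or_neg i
  · exact EE_cj_nat hA h k a b ω h1 h4
  · have h5 := EE_cj_nat hA h k (a + -(k : ℤ)) (b + -(k : ℤ)) (fun y => ω (shZ (k : ℤ) y)) h3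
      (by omega)
    have e1 : a + -(k : ℤ) + k = a := by ring
    have e2 : b + -(k : ℤ) + k = b := by ring
    have e3 : ∀ y, shZ (k : ℤ) (shZ (-(k : ℤ)) y) = y := by
      intro y
      rw [shZ_shZ, add_neg_cancel, shZ_zero]
    rw [e1, e2] at h5
    simp only [e3] at h5
    rw [← h5, cj_cj, neg_add_cancel, cj_zero, neg_neg]

/-! ### windows -/

theorem finite_lam (hO : S_OK) (p : ℕ) [Fact p.Prime] (a b : ℤ) : Finite {y : Lam // InL a b y} := by
  have hfin : Finite (WN p a b) := (hO p).fin a b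
  let φ : {y : Lam // InL a b y} → WN p a b := fun y =>
    ⟨⟨0, y.1⟩, ⟨y.2, fun z hz => absurd rfl hz⟩⟩
  apply Finite.of_injective φ
  intro y z hyz
  have h1 := congrArg (fun x : WN p a b => x.1.l) hyz
  exact Subtype.ext h1

/-- the spectral projections of a window -/
def EG (p : ℕ) [Fact p.Prime] {d : ℕ} (α : NN p → UU d) (G : ℕ)
    (ω : {y : Lam // InL (-(G : ℤ)) (G : ℤ) y} → ZMod p) : Mt d :=
  EE p α (-(G : ℤ)) G (exo p (-(G : ℤ)) G ω)

open Classical in
theorem EG_pv (hA : S_SPA) {R : ℕ} {α : NN p → UU d} {t : UU d} (h : Act (SS p) R α t)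
    (G : ℕ) (hG : G ≤ R) [Fintype {y : Lam // InL (-(G : ℤ)) (G : ℤ) y}] : PV (EG p α G) := by
  obtain ⟨h1, h2, h3, h4, h5, h6, h7, h8⟩ := hA p R d α t h (-(G : ℤ)) G (by omega) (by omega)
  obtain ⟨h9, -⟩ := h8 inferInstance
  refine ⟨fun ω => h1 _, fun ω ω' hne => h3 _ _ ?_, h9⟩
  obtain ⟨y, hy⟩ := Function.ne_iff.1 hne
  refine ⟨y.1, y.2, ?_⟩
  rw [exo_of ω y.2, exo_of ω' y.2]
  exact hy

/-- restriction of a shifted pattern -/
def pull (p g G : ℕ) (i : ℤ) (ω : {y : Lam // InL (-(G : ℤ)) (G : ℤ) y} → ZMod p) :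
    {y : Lam // InL (-(g : ℤ)) (g : ℤ) y} → ZMod p :=
  fun y => exo p (-(G : ℤ)) G ω (shZ i y.1)

open Classical in
/-- refinement and shift -/
theorem refine_shift (hA : S_SPA) {R : ℕ} {α : NN p → UU d} {t : UU d} (h : Act (SS p) R α t)
    (g G : ℕ) (i : ℤ) (hi : g + |i| ≤ G) (hG : G ≤ R)
    [Fintype {y : Lam // InL (-(g : ℤ)) (g : ℤ) y}] [Fintype {y : Lam // InL (-(G : ℤ)) (G : ℤ) y}]
    (Φ : ({y : Lam // InL (-(g : ℤ)) (g : ℤ) y} → ZMod p) → Prop) :
    cj t i (DD (EG p α g) Φ) = DD (EG p α G) (fun ω => Φ (pull p g G i ω)) := by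
  have hi1 := neg_abs_le i
  have hi2 := le_abs_self i
  obtain ⟨-, -, -, -, -, -, -, h8⟩ := hA p R d α t h (-(G : ℤ)) G (by omega) (by omega)
  obtain ⟨-, h9⟩ := h8 inferInstance
  have h10 : ∀ ω', cj t i (EG p α g ω') = ∑ ω : {y : Lam // InL (-(G : ℤ)) (G : ℤ) y} → ZMod p,
      if ω' = pull p g G i ω then EG p α G ω else 0 := by
    intro ω'
    unfold EG
    rw [EE_cj hA h i _ _ _ (by omega) (by omega) (by omega) (by omega),
      h9 (-(g : ℤ) + i) (g + i) _ (by omega) (by omega)]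
    apply Finset.sum_congr rfl
    intro ω _
    have hiff : (∀ y, InL (-(g : ℤ) + i) (g + i) y → exo p (-(G : ℤ)) G ω y =
        exo p (-(g : ℤ)) g ω' (shZ (-i) y)) ↔
        ω' = pull p g G i ω := by
      constructor
      · intro h1
        funext y
        have h2 := h1 (shZ i y.1) (InL_shZ y.2 i)
        unfold pull
        rw [h2, shZ_shZ, neg_add_cancel, shZ_zero, exo_of ω' y.2]
      · intro h1 y hy
        have h2 : InL (-(g : ℤ)) g (shZ (-i) y) := by
          have := InL_shZ hy (-i)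
          rwa [add_neg_cancel_right, add_neg_cancel_right] at this
        rw [exo_of ω' h2, h1]
        unfold pull
        simp only
        rw [shZ_shZ, add_neg_cancel, shZ_zero]
    by_cases h1 : ω' = pull p g G i ω
    · rw [if_pos (hiff.2 h1), if_pos h1]
    · rw [if_neg (fun h2 => h1 (hiff.1 h2)), if_neg h1]
  unfold DD
  rw [cj_sum]
  have h11 : ∀ ω', cj t i (if Φ ω' then EG p α g ω' else 0) =
      ∑ ω : {y : Lam // InL (-(G : ℤ)) (G : ℤ) y} → ZMod p,
        if ω' = pull p g G i ω then (if Φ ω' then EG p α G ω else 0) else 0 := by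
    intro ω'
    by_cases h1 : Φ ω'
    · rw [if_pos h1, h10]
      apply Finset.sum_congr rfl
      intro ω _
      rw [if_pos h1]
    · rw [if_neg h1, cj_z]
      symm
      apply Finset.sum_eq_zero
      intro ω _
      rw [if_neg h1, ite_self]
  rw [Finset.sum_congr rfl (fun ω' _ => h11 ω'), Finset.sum_comm]
  apply Finset.sum_congr rfl
  intro ω _
  rw [Finset.sum_ite_eq' Finset.univ (pull p g G i ω)
    (fun ω' => if Φ ω' then EG p α G ω else 0), if_pos (Finset.mem_univ _)]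

end

end Pool.Agent.N596.AS
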